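import Mathlib

namespace Pool.Agent.Results.MP_fcf092_an.MonomialTestFails

open Polynomial

/-- The physicists' Hermite polynomials: H 0 = 1 and H (n+1) = 2 x H n - (H n)'. -/
noncomputable def herm : ℕ → ℝ[X]
  | 0 => 1
  | (n + 1) => 2 * X * herm n - derivative (herm n)

/-- All complex zeros are real; the zero polynomial and constants count. -/
def Hyperbolic (p : ℝ[X]) : Prop := p = 0 ∨ ∀ z : ℂ, aeval z p = 0 → z.im = 0

/-- T = sum of Q k D^k, as operators on real polynomials (only k up to the degree matters). -/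
def Represents (T : ℝ[X] →ₗ[ℝ] ℝ[X]) (Q : ℕ → ℝ[X]) : Prop :=
  ∀ (p : ℝ[X]) (N : ℕ), p.natDegree < N →
    T p = ∑ k ∈ Finset.range N, Q k * derivative^[k] p

/-- T preserves hyperbolicity. -/
def Preserves (T : ℝ[X] →ₗ[ℝ] ℝ[X]) : Prop := ∀ p, Hyperbolic p → Hyperbolic (T p)

/-- The operator x D - D^2 / 2. -/
noncomputable def E : ℝ[X] →ₗ[ℝ] ℝ[X] :=
  (LinearMap.mulLeft ℝ (X : ℝ[X])) ∘ₗ derivative - (1 / 2 : ℝ) • (derivative ∘ₗ derivative)

lemma E_apply (p : ℝ[X]) : E p = X * derivative p - C (1 / 2) * derivative (derivative p) := by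
  simp [E, smul_eq_C_mul]

lemma herm_succ (n : ℕ) : herm (n + 1) = 2 * X * herm n - derivative (herm n) := rfl

lemma herm_deriv (n : ℕ) : derivative (herm (n + 1)) = C (2 * (n + 1 : ℝ)) * herm n := by
  induction n with
  | zero => simp [herm, C_ofNat]
  | succ n ih =>
    have h2 : derivative (derivative (herm (n + 1))) = C (2 * (n + 1 : ℝ)) * derivative (herm n) := by
      rw [ih, derivative_C_mul]
    rw [herm_succ (n + 1), derivative_sub, h2, derivative_mul, ih, herm_succ n]
    simp only [derivative_mul, derivative_ofNat, derivative_X, map_mul, map_add, map_natCast,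
      map_ofNat, map_one, Nat.cast_add, Nat.cast_one]
    ring

lemma herm_ode (n : ℕ) : E (herm n) = C (n : ℝ) * herm n := by
  have h := herm_deriv n
  rw [herm_succ, derivative_sub, derivative_mul] at h
  simp only [derivative_mul, derivative_ofNat, derivative_X, map_mul, map_add, map_natCast,
      map_ofNat, map_one] at h
  rw [E_apply]
  have hc : (C (1 / 2 : ℝ) : ℝ[X]) * 2 = 1 := by
    rw [← C_ofNat, ← C_mul]; norm_num
  have h3 : (2 : ℝ[X]) * (X * derivative (herm n) - C (1 / 2) * derivative (derivative (herm n)))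
      = 2 * (C (n : ℝ) * herm n) := by
    rw [map_natCast]
    linear_combination h - hc * derivative (derivative (herm n))
  have h2 : (2 : ℝ[X]) ≠ 0 := by
    rw [← C_ofNat, Ne, C_eq_zero]; norm_num
  exact mul_left_cancel₀ h2 h3

/-- The coefficients of T. -/
noncomputable def Q : ℕ → ℝ[X]
  | 0 => 1
  | 1 => X
  | 2 => X ^ 2 - 1
  | 3 => - X
  | 4 => C (1 / 4)
  | _ => 0

/-- The Hermite diagonal operator with eigenvalues n^2 + 1. -/
noncomputable def T : ℝ[X] →ₗ[ℝ] ℝ[X] := E ∘ₗ E + LinearMap.id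

lemma T_apply (p : ℝ[X]) : T p = E (E p) + p := rfl

/-- Sum of five terms. -/
lemma sum_five (R : ℕ → ℝ[X]) (hR : ∀ k, 5 ≤ k → R k = 0) (p : ℝ[X]) (N : ℕ)
    (hN : p.natDegree < N) :
    ∑ k ∈ Finset.range N, R k * derivative^[k] p = ∑ k ∈ Finset.range 5, R k * derivative^[k] p := by
  have h1 : ∑ k ∈ Finset.range N, R k * derivative^[k] p
      = ∑ k ∈ Finset.range (max N 5), R k * derivative^[k] p := by
    apply Finset.sum_subset
    · intro k hk
      rw [Finset.mem_range] at hk ⊢
      exact lt_of_lt_of_le hk (le_max_left _ _)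
    · intro k _ hk
      rw [Finset.mem_range, not_lt] at hk
      rw [iterate_derivative_eq_zero (lt_of_lt_of_le hN hk), mul_zero]
  have h2 : ∑ k ∈ Finset.range 5, R k * derivative^[k] p
      = ∑ k ∈ Finset.range (max N 5), R k * derivative^[k] p := by
    apply Finset.sum_subset
    · intro k hk
      rw [Finset.mem_range] at hk ⊢
      exact lt_of_lt_of_le hk (le_max_right _ _)
    · intro k _ hk
      rw [Finset.mem_range, not_lt] at hk
      rw [hR k hk, zero_mul]
  rw [h1, h2]

lemma T_formula (p : ℝ[X]) : T p = p + X * derivative p + (X ^ 2 - 1) * derivative (derivative p)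
    - X * derivative (derivative (derivative p))
    + C (1 / 4) * derivative (derivative (derivative (derivative p))) := by
  rw [T_apply, E_apply, E_apply]
  have hc : (C (1 / 2 : ℝ) : ℝ[X]) * 2 = 1 := by
    rw [← C_ofNat, ← C_mul]; norm_num
  have hc2 : (C (1 / 4 : ℝ) : ℝ[X]) = C (1 / 2) * C (1 / 2) := by
    rw [← C_mul]; norm_num
  simp only [derivative_sub, derivative_mul, derivative_X, derivative_C_mul, derivative_add,
    one_mul, derivative_C, zero_mul, zero_add]
  rw [hc2]
  linear_combination (- derivative (derivative p) - X * derivative (derivative (derivative p))) * hc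

/-- The coefficients of W. -/
noncomputable def R (k : ℕ) : ℝ[X] := C (1 / 2 ^ k) * Q k

/-- The rescaled operator. -/
noncomputable def W : ℝ[X] →ₗ[ℝ] ℝ[X] :=
  ∑ k ∈ Finset.range 5, (LinearMap.mulLeft ℝ (R k)) ∘ₗ (derivative ^ k)

lemma W_apply (p : ℝ[X]) : W p = ∑ k ∈ Finset.range 5, R k * derivative^[k] p := by
  simp [W, LinearMap.sum_apply, Module.End.pow_apply]

lemma W_formula (p : ℝ[X]) : W p = p + C (1 / 2) * X * derivative p
    + C (1 / 4) * (X ^ 2 - 1) * derivative (derivative p)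
    - C (1 / 8) * X * derivative (derivative (derivative p))
    + C (1 / 64) * derivative (derivative (derivative (derivative p))) := by
  rw [W_apply]
  simp only [Finset.sum_range_succ, Finset.sum_range_zero, R, Q, Function.iterate_succ,
    Function.iterate_zero, Function.comp, id]
  have h1 : (C (1 / 2 ^ 4 : ℝ) : ℝ[X]) * C (1 / 4) = C (1 / 64) := by
    rw [← C_mul]; norm_num
  have h2 : (1 / 2 ^ 2 : ℝ) = 1 / 4 := by norm_num
  have h3 : (1 / 2 ^ 3 : ℝ) = 1 / 8 := by norm_num
  have h4 : (1 / 2 ^ 0 : ℝ) = 1 := by norm_num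
  have h5 : (1 / 2 ^ 1 : ℝ) = 1 / 2 := by norm_num
  rw [h1, h2, h3, h4, h5]
  simp only [C_1]
  ring

lemma real_of_sq {w : ℂ} {Δ : ℝ} (hΔ : 0 ≤ Δ) (h : w ^ 2 = (Δ : ℂ)) : w.im = 0 := by
  have h1 := congrArg Complex.re h
  have h2 := congrArg Complex.im h
  simp [sq] at h1 h2
  have h3 : w.re = 0 ∨ w.im = 0 := by
    have : w.re * w.im = 0 := by linarith
    exact mul_eq_zero.mp this
  rcases h3 with h3 | h3
  · rw [h3] at h1
    nlinarith
  · exact h3

lemma quad_real {A B D : ℝ} (hA : 0 < A) (hB : 0 ≤ B) (hD : 0 ≤ D) (hd : 0 ≤ B ^ 2 - 4 * A * D)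
    {z : ℂ} (h : (A : ℂ) * z ^ 4 - B * z ^ 2 + D = 0) : z.im = 0 := by
  have h1 : (2 * A * z ^ 2 - B) ^ 2 = ((B ^ 2 - 4 * A * D : ℝ) : ℂ) := by
    push_cast
    linear_combination (4 * A : ℂ) * h
  have h2 := real_of_sq hd h1
  have h3 : (z ^ 2).im = 0 := by
    simp [sq] at h2
    have h4 : (z.re * z.im + z.im * z.re) = 0 := by
      rcases h2 with h | h
      · exact absurd h hA.ne'
      · exact h
    simp [sq]
    exact h4
  obtain ⟨w, hw⟩ : ∃ w : ℝ, z ^ 2 = (w : ℂ) :=
    ⟨(z ^ 2).re, Complex.ext (by simp) (by rw [h3]; simp)⟩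
  have h4 : A * w ^ 2 - B * w + D = 0 := by
    have : (A : ℂ) * (z ^ 2) ^ 2 - B * z ^ 2 + D = 0 := by
      rw [← h]; ring
    rw [hw] at this
    exact_mod_cast this
  have hw0 : 0 ≤ w := by
    by_contra hneg
    push Not at hneg
    have : 0 < A * w ^ 2 := mul_pos hA (by nlinarith)
    have : B * w ≤ 0 := mul_nonpos_of_nonneg_of_nonpos hB hneg.le
    linarith
  exact real_of_sq hw0 hw

lemma dX (a : ℝ) (k : ℕ) : derivative (C a * X ^ (k + 1) : ℝ[X]) = C (a * (k + 1)) * X ^ k := by
  rw [derivative_C_mul, derivative_X_pow]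
  simp [C_mul, mul_assoc]

lemma W_monomial (n : ℕ) : Hyperbolic (W (X ^ n)) := by
  right
  intro z hz
  by_cases hz0 : z = 0
  · rw [hz0]; simp
  rcases Nat.lt_or_ge n 4 with hn | hn
  · interval_cases n
    · exfalso
      rw [W_formula] at hz
      simp at hz
    · rw [W_formula] at hz
      simp at hz
      have h2 : (3 / 2 : ℂ) * z = 0 := by linear_combination hz
      exact absurd (by simpa using h2) hz0
    · rw [W_formula] at hz
      simp [derivative_mul] at hz
      have h2 : ((5 / 2 : ℝ) : ℂ) * z ^ 4 - ((1 / 2 : ℝ) : ℂ) * z ^ 2 + ((0 : ℝ) : ℂ) = 0 := by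
        push_cast
        linear_combination z ^ 2 * hz
      exact quad_real (by norm_num) (by norm_num) le_rfl (by norm_num) h2
    · rw [W_formula] at hz
      simp [derivative_mul] at hz
      have h2 : ((4 : ℝ) : ℂ) * z ^ 4 - ((9 / 4 : ℝ) : ℂ) * z ^ 2 + ((0 : ℝ) : ℂ) = 0 := by
        push_cast
        linear_combination z * hz
      exact quad_real (by norm_num) (by norm_num) le_rfl (by norm_num) h2
  · obtain ⟨m, rfl⟩ := Nat.exists_eq_add_of_le' hn
    have hm : (0 : ℝ) ≤ m := Nat.cast_nonneg m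
    have hX : (X ^ (m + 4) : ℝ[X]) = C 1 * X ^ (m + 3 + 1) := by simp
    rw [W_formula, hX, dX, dX, dX, dX] at hz
    have key : z ^ m * (((((m + 4 : ℝ)) ^ 2 + (m + 4) + 4) / 4 : ℝ) * z ^ 4
        - (((m + 4 : ℝ) ^ 2 * (m + 3) / 8 : ℝ) : ℂ) * z ^ 2
        + (((m + 4 : ℝ) * (m + 3) * (m + 2) * (m + 1) / 64 : ℝ) : ℂ)) = 0 := by
      have : ∀ a : ℝ, (algebraMap ℝ ℂ) a = (a : ℂ) := fun a => rfl
      simp only [map_add, map_mul, map_sub, aeval_X, aeval_C, map_pow, map_one, this] at hz
      push_cast at hz ⊢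
      linear_combination hz
    rcases mul_eq_zero.mp key with h | h
    · exact absurd (eq_zero_of_pow_eq_zero h) hz0
    · refine quad_real ?_ ?_ ?_ ?_ h
      · positivity
      · positivity
      · positivity
      · have : (((m + 4 : ℝ) ^ 2 * (m + 3) / 8)) ^ 2 - 4 * ((((m + 4 : ℝ)) ^ 2 + (m + 4) + 4) / 4) *
          ((m + 4 : ℝ) * (m + 3) * (m + 2) * (m + 1) / 64)
          = (m + 4) * (m + 3) / 64 * (3 * m ^ 3 + 31 * m ^ 2 + 118 * m + 144) := by ring
        rw [this]
        positivity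

lemma hyp_square : Hyperbolic ((X - C 3) ^ 2 : ℝ[X]) := by
  right
  intro z hz
  simp at hz
  have : z = 3 := by linear_combination hz
  rw [this]; simp

lemma W_bad : ¬ Hyperbolic (W ((X - C 3) ^ 2 : ℝ[X])) := by
  have d1 : derivative ((X - C 3) ^ 2 : ℝ[X]) = C 2 * (X - C 3) := by
    rw [derivative_sq, derivative_sub, derivative_X, derivative_C]; simp
  have d2 : derivative (C 2 * (X - C 3) : ℝ[X]) = C 2 := by
    rw [derivative_C_mul, derivative_sub, derivative_X, derivative_C]; simp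
  have hform : ∀ z : ℂ, aeval z (W ((X - C 3) ^ 2 : ℝ[X])) = 5 / 2 * z ^ 2 - 9 * z + 17 / 2 := by
    intro z
    rw [W_formula, d1, d2]
    have : ∀ a : ℝ, (algebraMap ℝ ℂ) a = (a : ℂ) := fun a => rfl
    simp only [derivative_C, derivative_zero, mul_zero, map_add, map_sub, map_mul, map_pow,
      aeval_X, aeval_C, this, map_one, map_zero]
    push_cast
    ring
  rintro (h | h)
  · have := hform 0
    rw [h] at this
    norm_num at this
  · have hz : aeval ((9 / 5 : ℂ) + (2 / 5) * Complex.I) (W ((X - C 3) ^ 2 : ℝ[X])) = 0 := by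
      rw [hform]
      linear_combination (2 / 5 : ℂ) * Complex.I_sq
    have := h _ hz
    simp at this

/-- The monomial test fails, even for a Hermite diagonal operator of finite order whose
eigenvalues are positive and strictly increasing. -/
theorem result : ∃ (T W : ℝ[X] →ₗ[ℝ] ℝ[X]) (γ : ℕ → ℝ) (Q : ℕ → ℝ[X]),
    (∀ n, T (herm n) = C (γ n) * herm n) ∧ Represents T Q ∧
    Represents W (fun k => C (1 / 2 ^ k) * Q k) ∧
    (∀ n, 0 < γ n) ∧ StrictMono γ ∧
    (∀ n : ℕ, Hyperbolic (W (X ^ n))) ∧ ¬ Preserves W := by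
  refine ⟨T, W, fun n => (n : ℝ) ^ 2 + 1, Q, ?_, ?_, ?_, ?_, ?_, W_monomial, ?_⟩
  · intro n
    rw [T_apply, herm_ode]
    have : E (C (n : ℝ) * herm n) = C (n : ℝ) * E (herm n) := by
      rw [← smul_eq_C_mul, map_smul, smul_eq_C_mul]
    rw [this, herm_ode]
    simp only [map_add, map_pow, map_one]
    ring
  · intro p N hN
    rw [sum_five Q _ p N hN, T_formula]
    · simp only [Finset.sum_range_succ, Finset.sum_range_zero, Q, Function.iterate_succ,
        Function.iterate_zero, Function.comp, id]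
      ring
    · intro k hk
      obtain ⟨j, rfl⟩ := Nat.exists_eq_add_of_le' hk
      rfl
  · intro p N hN
    have h := sum_five R (fun k hk => by
      obtain ⟨j, rfl⟩ := Nat.exists_eq_add_of_le' hk
      simp [R, Q]) p N hN
    rw [W_apply, ← h]
    rfl
  · intro n; positivity
  · intro a b hab
    have : (a : ℝ) < b := by exact_mod_cast hab
    have h0 : (0 : ℝ) ≤ a := Nat.cast_nonneg a
    simp only
    nlinarith
  · intro h
    exact W_bad (h _ hyp_square)

end Pool.Agent.Results.MP_fcf092_an.MonomialTestFails
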